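import Mathlib

set_option autoImplicit false

namespace Pool.Agent.Results.MP_208a82_co.Counter
open Set MeasureTheory Pointwise

abbrev E (d : ℕ) := EuclideanSpace ℝ (Fin d)

/-- full-dimensional polytope with volume in `I` -/
def Vert {d : ℕ} (I : Set ℝ) (P : Set (E d)) : Prop :=
  (∃ S : Finset (E d), P = convexHull ℝ (S : Set (E d))) ∧ (interior P).Nonempty ∧ (volume P).toReal ∈ I

/-- `Q` is obtained from `P` by an insertion -/
def Ins {d : ℕ} (P Q : Set (E d)) : Prop :=
  ∃ x, Q = convexHull ℝ (insert x P) ∧ Q.extremePoints ℝ = insert x (P.extremePoints ℝ)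

/-- adjacency in the graph induced on the polytopes with volume in `I` -/
def Adj {d : ℕ} (I : Set ℝ) (P Q : Set (E d)) : Prop := Vert I P ∧ Vert I Q ∧ (Ins P Q ∨ Ins Q P)

lemma iso {d : ℕ} (hd : 2 ≤ d) (I : Set ℝ) (S : Finset (E d)) (hS : S.card ≤ d + 1)
    (hm : ∀ y ∈ I, y ≤ (volume (convexHull ℝ (S : Set (E d)))).toReal) (Q : Set (E d))
    (h : Adj I (convexHull ℝ (S : Set (E d))) Q) : Q = convexHull ℝ (S : Set (E d)) := by
  classical
  obtain ⟨-, ⟨⟨R, hR⟩, hi, hv⟩, h⟩ := h
  have cT := S.finite_toSet.isCompact_convexHull ℝ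
  have cQ : IsCompact Q := hR ▸ R.finite_toSet.isCompact_convexHull ℝ
  have vQ : Convex ℝ Q := hR ▸ convex_convexHull ℝ _
  rcases h with ⟨x, h1, -⟩ | ⟨x, h1, h2⟩
  · have hTQ : convexHull ℝ (S : Set (E d)) ⊆ Q := h1 ▸ (subset_insert _ _).trans (subset_convexHull ℝ _)
    refine subset_antisymm ?_ hTQ
    by_contra hc
    have hU : (interior Q \ convexHull ℝ (S : Set (E d))).Nonempty := by
      rw [nonempty_iff_ne_empty, ne_eq, diff_eq_empty]
      intro e
      have := closure_minimal e cT.isClosed
      rw [vQ.closure_interior_eq_closure_of_nonempty_interior hi] at this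
      exact hc (subset_closure.trans this)
    have p := (isOpen_interior.sdiff cT.isClosed).measure_pos volume hU
    have q : volume (convexHull ℝ (S : Set (E d))) + volume (interior Q \ convexHull ℝ (S : Set (E d))) ≤
        volume Q := by
      rw [← measure_union disjoint_sdiff_right (isOpen_interior.sdiff cT.isClosed).measurableSet]
      exact measure_mono (union_subset hTQ (diff_subset.trans interior_subset))
    have r := (ENNReal.lt_add_right cT.measure_lt_top.ne p.ne').trans_le q
    exact absurd (hm _ hv) (not_le.2 ((ENNReal.toReal_lt_toReal cT.measure_lt_top.ne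
      cQ.measure_lt_top.ne).2 r))
  · by_cases hx : x ∈ Q.extremePoints ℝ
    · rw [h1, insert_eq_of_mem (extremePoints_subset hx), vQ.convexHull_eq]
    exfalso
    have e1 : insert x (Q.extremePoints ℝ) ⊆ S := h2 ▸ extremePoints_convexHull_subset
    have e2 : Q.extremePoints ℝ ⊆ (S.erase x : Finset _) := fun y hy => by
      simp only [Finset.coe_erase, mem_diff, mem_singleton_iff]
      exact ⟨e1 (mem_insert_of_mem _ hy), fun e => hx (e ▸ hy)⟩
    have e3 : Q ⊆ convexHull ℝ ((S.erase x : Finset _) : Set (E d)) := by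
      rw [← closure_convexHull_extremePoints cQ vQ]
      exact closure_minimal (convexHull_mono e2) ((S.erase x).finite_toSet.isClosed_convexHull ℝ)
    have e4 := AffineSubspace.vectorSpan_eq_top_of_affineSpan_eq_top ℝ _ _
      (interior_convexHull_nonempty_iff_affineSpan_eq_top.1 (hi.mono (interior_mono e3)))
    have e5 := Finset.card_erase_of_mem (e1 (mem_insert _ _))
    have e6 : (S.erase x).Nonempty := by
      obtain ⟨y, hy⟩ := hi
      exact Finset.coe_nonempty.1 (convexHull_nonempty_iff.1 ⟨y, e3 (interior_subset hy)⟩)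
    have e7 := finrank_vectorSpan_image_finset_le ℝ id (S.erase x) (n := (S.erase x).card - 1)
      (by have := e6.card_pos; omega)
    rw [Finset.image_id, e4, finrank_top, finrank_euclideanSpace_fin] at e7
    omega

theorem result (d : ℕ) (hd : 2 ≤ d) (I : Set ℝ) (m : ℝ) (hm : 0 < m) (hI : IsGreatest I m) :
    ∃ P Q : Set (E d), Vert I P ∧ Vert I Q ∧ ¬Relation.ReflTransGen (Adj I) P Q := by
  classical
  obtain ⟨b⟩ := AffineBasis.exists_affineBasis_of_finiteDimensional (ι := Fin (d + 1)) (k := ℝ)
    (V := E d) (P := E d) (by simp)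
  have i0 := interior_convexHull_nonempty_iff_affineSpan_eq_top.2 b.tot
  have c0 := (finite_range b).isCompact_convexHull ℝ
  have v0 := ENNReal.toReal_pos (Measure.measure_pos_of_nonempty_interior volume i0).ne'
    c0.measure_lt_top.ne
  set v := (volume (convexHull ℝ (range b))).toReal
  let c : ℝ := (m / v) ^ ((d : ℝ)⁻¹)
  have hc : 0 < c := by positivity
  have hcd : c ^ d = m / v := Real.rpow_inv_natCast_pow (by positivity) (by omega)
  let S : Finset (E d) := Finset.univ.image fun i => c • b i
  have hS : (S : Set (E d)) = c • range b := by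
    simp only [S, Finset.coe_image, Finset.coe_univ, image_univ, ← range_smul]
  have iT : (interior (convexHull ℝ (S : Set (E d)))).Nonempty := by
    rw [hS, convexHull_smul, interior_smul₀ hc.ne']; exact i0.smul_set
  have vT : (volume (convexHull ℝ (S : Set (E d)))).toReal = m := by
    rw [hS, convexHull_smul, Measure.addHaar_smul, finrank_euclideanSpace_fin, hcd, ENNReal.toReal_mul,
      ENNReal.toReal_ofReal (abs_nonneg _), abs_of_pos (by positivity)]
    exact div_mul_cancel₀ _ v0.ne'
  obtain ⟨R, hR⟩ := (S.finite_toSet.isCompact_convexHull ℝ).isBounded.exists_norm_le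
  obtain ⟨p, hp⟩ := iT.mono interior_subset
  let w : E d := EuclideanSpace.single ⟨0, by omega⟩ (2 * R + 1)
  refine ⟨_, w +ᵥ convexHull ℝ (S : Set (E d)), ⟨⟨S, rfl⟩, iT, vT ▸ hI.1⟩,
    ⟨⟨w +ᵥ S, by rw [Finset.coe_vadd_finset, convexHull_vadd]⟩, ?_, ?_⟩, fun h => ?_⟩
  · rw [interior_vadd]; exact iT.vadd_set
  · rw [measure_vadd, vT]; exact hI.1
  have e : ∀ Q, Relation.ReflTransGen (Adj I) (convexHull ℝ (S : Set (E d))) Q →
      Q = convexHull ℝ (S : Set (E d)) := by
    intro Q h
    induction h with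
    | refl => rfl
    | tail _ h2 ih =>
      rw [ih] at h2
      exact iso hd I S (Finset.card_image_le.trans (by simp)) (fun y hy => vT ▸ hI.2 hy) _ h2
  have h1 := hR (w + p) (e _ h ▸ vadd_mem_vadd_set hp)
  have h2 := hR p hp
  have h3 : ‖w‖ ≤ ‖w + p‖ + ‖p‖ := by simpa using norm_sub_le (w + p) p
  have h4 : ‖w‖ = |2 * R + 1| := by simp [w]
  have := le_abs_self (2 * R + 1)
  linarith

end Pool.Agent.Results.MP_208a82_co.Counter
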